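import Pool.Agent.Q306.FK.GA.Eq
import Pool.Agent.Q306.FK.Stab

set_option autoImplicit false
set_option maxRecDepth 100000
set_option maxHeartbeats 4000000
open Finset

namespace Pool.Agent.Q306.FK.GA
open Pool.Agent.H122R2.N6 Pool.Agent.H37R3.Pen Pool.Agent.H37R3.K5

theorem emb : embL 261111 LST = true := by decide +kernel

theorem mask : MaskG 261111 FK.GA := by decide +kernel

theorem three : ∀ e ∈ FK.GA, e.card = 3 := by decide +kernel

theorem edges {n : ℕ} {H : Finset (Finset (Fin n))} (hH : ThreeGraph H) (hF : FK.K53Free H) :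
    8 * n ^ 3 * H.card ≤ n ^ 6 + 120 * copies FK.GA H := by
  have h := main (tn_sy H) (tn_noK5 hH hF)
    (R := fun k x => k ≤ CST + PEN * XS (tn H) 261111 x)
    (fun k x s hs hk => by rw [XS_comp x hs]; exact hk)
    (fun k x hk => by
      have hk' : (Nat.ble k CST || (inL (code (tn H) x) LST && Nat.ble k (Nat.add CST PEN))) = true := hk
      rw [Bool.or_eq_true, Bool.and_eq_true] at hk'
      rcases hk' with h1 | ⟨h1, h2⟩
      · exact le_trans (Nat.le_of_ble_eq_true h1) (Nat.le_add_right _ _)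
      · rw [XS_of_inL (tn_sy H) emb h1, mul_one]
        exact Nat.le_of_ble_eq_true h2)
    (fun x => (CST : ℤ) + (PEN : ℤ) * ((XS (tn H) 261111 x : ℕ) : ℤ))
    (fun k x hk => by exact_mod_cast hk)
  have hC : (CST : ℤ) = 266988217574040 := rfl
  have hP : (PEN : ℤ) = 513832889520 := rfl
  rw [sum_add_distrib, sum_const, ← mul_sum, card_univ, Fintype.card_fun, Fintype.card_fin,
    Fintype.card_fin, nsmul_eq_mul, hC, hP] at h
  push_cast at h
  have h1 : ∑ x : Fin 6 → Fin n, ((XS (tn H) 261111 x : ℕ) : ℤ) ≤ ((720 * copies FK.GA H : ℕ) : ℤ) := by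
    exact_mod_cast sum_XS_le hH mask three
  have h2 : ((6 * H.card : ℕ) : ℤ) ≤ ∑ a, ∑ b, ∑ c, ((tn H a b c : ℕ) : ℤ) := by
    exact_mod_cast tn_card hH
  have h3 : (0 : ℤ) ≤ (n : ℤ) ^ 3 := by positivity
  have h4 := mul_le_mul_of_nonneg_left h2 h3
  have h6 : (0 : ℤ) ≤ (copies FK.GA H : ℤ) := by positivity
  have h5 : (8 * (n : ℤ) ^ 3 * (H.card : ℤ)) ≤ (n : ℤ) ^ 6 + 120 * (copies FK.GA H : ℤ) := by
    push_cast at h1 h4
    linarith
  exact_mod_cast h5

end Pool.Agent.Q306.FK.GA
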